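import Pool.Agent.W425.MM.Defs

/-!
# Project MM (helper425), part A1: restriction of the relation to a coordinate subspace
-/

set_option autoImplicit false

namespace Pool.Agent.W688.MM

open MvPolynomial Pool.Agent.H628R4.TZ Pool.Agent.H628R4.TP Pool.Agent.W425.SM Pool.Agent.W425.SL
  Pool.Agent.W425.SG Pool.Agent.W425.SV Pool.Agent.W425.MM

open Classical in
theorem hgt_sum {r N N' : ℕ} (v : Fin r → Fin N → ℕ) (U : Fin N' → Fin N) (w : Fin r → ℝ) :
    ∑ j, w j * (hgt v U j : ℝ) =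
      ∑ i, if i ∈ Set.range U then 0 else ∑ j, w j * (v j i : ℝ) := by
  have h1 : ∀ j, w j * (hgt v U j : ℝ) =
      ∑ i, (if i ∈ Set.range U then 0 else w j * (v j i : ℝ)) := by
    intro j
    unfold hgt
    rw [Nat.cast_sum, Finset.mul_sum]
    apply Finset.sum_congr rfl
    intro i _
    split_ifs
    · rw [Nat.cast_zero, mul_zero]
    · rfl
  rw [Finset.sum_congr rfl (fun j _ => h1 j), Finset.sum_comm]
  apply Finset.sum_congr rfl
  intro i _
  split_ifs
  · exact Finset.sum_const_zero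
  · rfl

theorem kil_one {r N N' : ℕ} (v : Fin r → Fin N → ℕ) (U : Fin N' → Fin N) (θ : Fin r → ℝ)
    (loc : Prop) (c : Fin r → ℤ) (h : Kil0 v θ loc c) : ∃ C0 : ℝ, 0 ≤ C0 ∧ ∀ C : ℝ,
      (loc → C0 ≤ C) →
      KilW (fun j i => v j (U i)) (fun j => θ j - C * (hgt v U j : ℝ)) loc c := by
  have hexp : ∀ (w : Fin r → ℝ) (C : ℝ), ∑ j, w j * (θ j - C * (hgt v U j : ℝ)) =
      ∑ j, w j * θ j - C * ∑ j, w j * (hgt v U j : ℝ) := by
    intro w C
    rw [Finset.mul_sum, ← Finset.sum_sub_distrib]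
    exact Finset.sum_congr rfl fun j _ => by ring
  rcases h with ⟨h1, h2, h3⟩ | ⟨hloc, l, hl0, h1, h2, i0, h3⟩
  · refine ⟨0, le_rfl, fun C _ => Or.inl ⟨fun _ => 0, fun _ => le_rfl, ?_, ?_, ?_⟩⟩
    · simp only [add_zero]
      exact_mod_cast h1
    · intro i
      simp only [add_zero]
      exact_mod_cast h2 (U i)
    · simp only [add_zero]
      rw [hexp, hgt_sum]
      have h4 : ∀ i, ∑ j, (c j : ℝ) * (v j i : ℝ) = 0 := fun i => by exact_mod_cast h2 i
      simp only [h4, ite_self, Finset.sum_const_zero, mul_zero, sub_zero]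
      exact h3
  · by_cases h4 : ∃ i', ∑ j, ((c j : ℝ) + l j) * (v j (U i') : ℝ) < 0
    · exact ⟨0, le_rfl, fun C _ => Or.inr ⟨hloc, l, hl0, h1, fun i => h2 (U i), h4⟩⟩
    · push Not at h4
      have h5 : ∀ i', ∑ j, ((c j : ℝ) + l j) * (v j (U i') : ℝ) = 0 := fun i' =>
        le_antisymm (h2 (U i')) (h4 i')
      obtain ⟨H, hH⟩ : ∃ H : ℝ, H = ∑ j, ((c j : ℝ) + l j) * (hgt v U j : ℝ) := ⟨_, rfl⟩
      obtain ⟨S, hS⟩ : ∃ S : ℝ, S = ∑ j, ((c j : ℝ) + l j) * θ j := ⟨_, rfl⟩
      have hHneg : H < 0 := by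
        rw [hH, hgt_sum]
        have hi0 : i0 ∉ Set.range U := by
          rintro ⟨i', rfl⟩
          rw [h5 i'] at h3
          exact lt_irrefl _ h3
        classical
        apply Finset.sum_neg'
        · intro i _
          split_ifs
          · exact le_rfl
          · exact h2 i
        · refine ⟨i0, Finset.mem_univ _, ?_⟩
          rw [if_neg hi0]
          exact h3
      refine ⟨|S| / (-H) + 1, by
        have : 0 ≤ |S| / (-H) := div_nonneg (abs_nonneg _) (by linarith)
        linarith, fun C hC => Or.inl ⟨l, hl0, h1, h5, ?_⟩⟩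
      rw [hexp, ← hH, ← hS]
      have h6 := hC hloc
      have h7 : |S| / (-H) * (-H) = |S| := div_mul_cancel₀ _ (by linarith)
      have h8 : (|S| / (-H) + 1) * (-H) ≤ C * (-H) := mul_le_mul_of_nonneg_right h6 (by linarith)
      have h9 := neg_abs_le S
      nlinarith

theorem a1 : TaskA1 := by
  classical
  intro r N N' v U hU θ loc p hR
  obtain ⟨M, n, n0, c, B, q, c0, q0, hK1, hK0, heq⟩ := hR
  have hk := fun k => kil_one v U θ loc (c0 k) (hK0 k)
  choose Ck hCk0 hCk using hk
  refine ⟨∑ k, Ck k, fun C hC => ⟨M, n, n0, c,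
    fun k => Finset.univ.filter (fun i' => U i' ∈ B k),
    fun k => (∏ i ∈ (B k).filter (fun i => i ∉ Set.range U), el v i) * q k, c0, q0, ?_, ?_, ?_⟩⟩
  · intro k
    obtain ⟨l, hl0, h1, h2⟩ := hK1 k
    refine ⟨l, hl0, h1, fun i hi => h2 (U i) ?_⟩
    intro h
    exact hi (Finset.mem_filter.2 ⟨Finset.mem_univ _, h⟩)
  · intro k
    apply hCk k
    intro hl
    exact (Finset.single_le_sum (fun k _ => hCk0 k) (Finset.mem_univ k)).trans (hC hl)
  · rw [heq]
    congr 1
    apply Finset.sum_congr rfl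
    intro k _
    have h1 : ∏ i ∈ B k, el v i = (∏ i' ∈ Finset.univ.filter (fun i' => U i' ∈ B k),
        el (fun j i => v j (U i)) i') * ∏ i ∈ (B k).filter (fun i => i ∉ Set.range U), el v i := by
      rw [← Finset.prod_filter_mul_prod_filter_not (B k) (fun i => i ∈ Set.range U)]
      congr 1
      have h2 : (B k).filter (fun i => i ∈ Set.range U) =
          (Finset.univ.filter (fun i' => U i' ∈ B k)).image U := by
        ext i
        simp only [Finset.mem_filter, Finset.mem_image, Set.mem_range, Finset.mem_univ, true_and]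
        constructor
        · rintro ⟨h3, i', rfl⟩
          exact ⟨i', h3, rfl⟩
        · rintro ⟨i', h3, rfl⟩
          exact ⟨h3, i', rfl⟩
      rw [h2, Finset.prod_image (fun x _ y _ h => hU h)]
      rfl
    rw [h1]
    ring

end Pool.Agent.W688.MM
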